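import Pool.Agent.DPF.StmtsR

/-!
Row RED of the squad DPF (MP_d97b4e_co): from the numeric problem `NumL` to `RULStmt`.
-/

namespace Pool.Agent.DPF.H27

open Finset Pool.Agent.DPS Pool.Agent.DPF

/-! ### Homogeneity of TT -/

lemma hh_smul {n : ℕ} (st : ℕ → ℕ) (j : Fin n) (X : Finset (Finset (Fin n)))
    (m : Finset (Fin n) → ℝ) (η : ℝ) :
    hh st j X (fun E => η * m E) = η * hh st j X m := by
  unfold hh
  rw [Finset.mul_sum]
  refine Finset.sum_congr rfl fun E _ => ?_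
  split_ifs <;> ring

lemma gg_smul {n : ℕ} (ν k : ℕ) (st : ℕ → ℕ) (j : Fin n) (X : Finset (Finset (Fin n)))
    (m : Finset (Fin n) → ℝ) (η : ℝ) :
    gg ν k st j X (fun E => η * m E) = η * gg ν k st j X m := by
  unfold gg
  rw [Finset.mul_sum]
  refine Finset.sum_congr rfl fun E _ => ?_
  split_ifs <;> ring

lemma gy_smul {n : ℕ} (ν k : ℕ) (st : ℕ → ℕ) (j : Fin n) (X : Finset (Finset (Fin n)))
    (m : Finset (Fin n) → ℝ) (η : ℝ) (y : Fin n) :
    gy ν k st j X (fun E => η * m E) y = η * gy ν k st j X m y := by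
  unfold gy
  rw [Finset.mul_sum]
  refine Finset.sum_congr rfl fun E _ => ?_
  split_ifs <;> ring

lemma max_smul {η : ℝ} (hη : 0 < η) (x : ℝ) : max (η * x) 0 = η * max x 0 := by
  rw [mul_max_of_nonneg x 0 hη.le, mul_zero]

lemma ex_smul {n k t L ν : ℕ} (ρ : Rl k t L ν) (c : ℝ) (f : Fin ρ.N → Fin n → ℝ) :
    ex ρ (fun i j => c * f i j) = c * ex ρ f := by
  unfold ex
  rw [Finset.mul_sum]
  refine Finset.sum_congr rfl fun i _ => ?_
  rw [← Finset.mul_sum]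
  ring

lemma ex_nonneg {n k t L ν : ℕ} (ρ : Rl k t L ν) (f : Fin ρ.N → Fin n → ℝ)
    (h : ∀ i j, 0 ≤ f i j) : 0 ≤ ex ρ f := by
  unfold ex
  refine Finset.sum_nonneg fun i _ => mul_nonneg (ρ.nonneg i) ?_
  exact div_nonneg (Finset.sum_nonneg fun j _ => h i j) (Nat.cast_nonneg L)

lemma tt_smul {n k t L ν : ℕ} (ρ : Rl k t L ν) (A : Finset (Fin n)) (X : Finset (Finset (Fin n)))
    (m : Finset (Fin n) → ℝ) {η : ℝ} (hη : 0 < η) (h : TT ρ A X m 1) :
    TT ρ A X (fun E => η * m E) η := by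
  unfold TT at h ⊢
  have key : ∀ (i : Fin ρ.N) (j : Fin n),
      ((∑ y ∈ ini n L \ A, ((max (η + gy ν k (ρ.st i) j X (fun E => η * m E) y) 0) ^ 2 - η ^ 2)) /
          ((A.card : ℝ) + 1) +
        (max (η - (∑ E ∈ X, η * m E - hh (ρ.st i) j X (fun E => η * m E))) 0) ^ 2 *
          (gg ν k (ρ.st i) j X (fun E => η * m E) / hh (ρ.st i) j X (fun E => η * m E)) - η ^ 2) =
      η ^ 2 * ((∑ y ∈ ini n L \ A, ((max (1 + gy ν k (ρ.st i) j X m y) 0) ^ 2 - 1 ^ 2)) /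
          ((A.card : ℝ) + 1) +
        (max (1 - (∑ E ∈ X, m E - hh (ρ.st i) j X m)) 0) ^ 2 *
          (gg ν k (ρ.st i) j X m / hh (ρ.st i) j X m) - 1 ^ 2) := by
    intro i j
    have h1 : ∑ y ∈ ini n L \ A, ((max (η + gy ν k (ρ.st i) j X (fun E => η * m E) y) 0) ^ 2 - η ^ 2)
        = η ^ 2 * ∑ y ∈ ini n L \ A, ((max (1 + gy ν k (ρ.st i) j X m y) 0) ^ 2 - 1 ^ 2) := by
      rw [Finset.mul_sum]
      refine Finset.sum_congr rfl fun y _ => ?_
      rw [gy_smul]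
      have : η + η * gy ν k (ρ.st i) j X m y = η * (1 + gy ν k (ρ.st i) j X m y) := by ring
      rw [this, max_smul hη]
      ring
    have h2 : max (η - (∑ E ∈ X, η * m E - hh (ρ.st i) j X (fun E => η * m E))) 0 =
        η * max (1 - (∑ E ∈ X, m E - hh (ρ.st i) j X m)) 0 := by
      rw [hh_smul, ← Finset.mul_sum]
      have : η - (η * ∑ E ∈ X, m E - η * hh (ρ.st i) j X m) =
        η * (1 - (∑ E ∈ X, m E - hh (ρ.st i) j X m)) := by ring
      rw [this, max_smul hη]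
    rw [h1, h2, hh_smul, gg_smul, mul_div_mul_left _ _ hη.ne']
    ring
  have e : ex ρ (fun i j =>
      (∑ y ∈ ini n L \ A, ((max (η + gy ν k (ρ.st i) j X (fun E => η * m E) y) 0) ^ 2 - η ^ 2)) /
          ((A.card : ℝ) + 1) +
        (max (η - (∑ E ∈ X, η * m E - hh (ρ.st i) j X (fun E => η * m E))) 0) ^ 2 *
          (gg ν k (ρ.st i) j X (fun E => η * m E) / hh (ρ.st i) j X (fun E => η * m E)) - η ^ 2) =
      ex ρ (fun i j => η ^ 2 * ((∑ y ∈ ini n L \ A,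
          ((max (1 + gy ν k (ρ.st i) j X m y) 0) ^ 2 - 1 ^ 2)) / ((A.card : ℝ) + 1) +
        (max (1 - (∑ E ∈ X, m E - hh (ρ.st i) j X m)) 0) ^ 2 *
          (gg ν k (ρ.st i) j X m / hh (ρ.st i) j X m) - 1 ^ 2)) := by
    congr 1
    funext i j
    exact key i j
  rw [e, ex_smul]
  exact mul_nonneg (sq_nonneg η) h

lemma se_nonneg {ν k e : ℕ} (h : e < k) : 0 ≤ se ν k e := by
  unfold se
  have : (e : ℝ) < k := by exact_mod_cast h
  exact div_nonneg (Nat.cast_nonneg ν) (by linarith)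

lemma tt_zero {n k t L ν : ℕ} (ρ : Rl k t L ν) (A : Finset (Fin n)) (X : Finset (Finset (Fin n)))
    (m : Finset (Fin n) → ℝ) (hX : ∀ E ∈ X, E.card < k) (hm : ∀ E ∈ X, 0 ≤ m E) :
    TT ρ A X m 0 := by
  unfold TT
  refine ex_nonneg ρ _ fun i j => ?_
  have h1 : 0 ≤ (∑ y ∈ ini n L \ A, ((max (0 + gy ν k (ρ.st i) j X m y) 0) ^ 2 - (0 : ℝ) ^ 2)) /
      ((A.card : ℝ) + 1) := by
    refine div_nonneg (Finset.sum_nonneg fun y _ => ?_) (by positivity)
    simp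
  have h2 : 0 ≤ gg ν k (ρ.st i) j X m := by
    unfold gg
    refine Finset.sum_nonneg fun E hE => ?_
    split_ifs
    · exact mul_nonneg (se_nonneg (hX E hE)) (hm E hE)
    · exact le_rfl
  have h3 : 0 ≤ hh (ρ.st i) j X m := by
    unfold hh
    refine Finset.sum_nonneg fun E hE => ?_
    split_ifs
    · exact hm E hE
    · exact le_rfl
  have h4 : 0 ≤ (max (0 - (∑ E ∈ X, m E - hh (ρ.st i) j X m)) 0) ^ 2 *
      (gg ν k (ρ.st i) j X m / hh (ρ.st i) j X m) :=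
    mul_nonneg (sq_nonneg _) (div_nonneg h2 h3)
  have h5 : (0 : ℝ) ^ 2 = 0 := by norm_num
  linarith

/-! ### Monotonicity of `ph4` in `s` -/

lemma max_sq_mono {x y : ℝ} (h : x ≤ y) : (max x 0) ^ 2 ≤ (max y 0) ^ 2 :=
  pow_le_pow_left₀ (le_max_right _ _) (max_le_max_right 0 h) 2

lemma xe_nonneg {L a : ℕ} {M : ℕ → ℝ} {e : ℕ} (ha : a + 2 ≤ L) (h0 : 0 ≤ M e)
    (h : M e ≠ 0 → a < e) : 0 ≤ xe L a M e := by
  unfold xe
  by_cases hM : M e = 0
  · rw [hM, zero_mul]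
  · have h1 : (a : ℝ) < e := by exact_mod_cast h hM
    have h2 : (a : ℝ) + 2 ≤ L := by exact_mod_cast ha
    exact mul_nonneg h0 (div_nonneg (by linarith) (by linarith))

lemma ph4_mono {L a : ℕ} {s s' : ℕ → ℝ} {st : ℕ → ℕ} {M : ℕ → ℝ} {σ η : ℝ} (ha : a + 2 ≤ L)
    (h0 : ∀ e, 0 ≤ M e) (h : ∀ e, M e ≠ 0 → a < e ∧ e + 1 ≤ L ∧ s e ≤ s' e) :
    ph4 L a s st M σ η ≤ ph4 L a s' st M σ η := by
  have h2 : (a : ℝ) + 2 ≤ L := by exact_mod_cast ha
  have h3 : (0 : ℝ) ≤ a := Nat.cast_nonneg a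
  have hx : ∀ e, 0 ≤ xe L a M e := fun e => xe_nonneg ha (h0 e) fun hM => (h e hM).1
  have hx0 : ∀ e, M e = 0 → xe L a M e = 0 := fun e he => by unfold xe; rw [he, zero_mul]
  have hA : gA L a s st M ≤ gA L a s' st M := by
    unfold gA
    refine Finset.sum_le_sum fun e _ => ?_
    by_cases hM : M e = 0
    · rw [hx0 e hM]; simp
    · refine mul_le_mul_of_nonneg_left ?_ (hx e)
      have := (h e hM).2.2
      split_ifs <;> linarith
  have hN : gN L a s st M ≤ gN L a s' st M := by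
    unfold gN
    refine Finset.sum_le_sum fun e _ => ?_
    by_cases hM : M e = 0
    · rw [hx0 e hM]; simp
    · refine mul_le_mul_of_nonneg_left ?_ (hx e)
      have h5 := (h e hM).2.2
      have h6 : (e : ℝ) + 1 ≤ L := by exact_mod_cast (h e hM).2.1
      refine sub_le_sub_right ?_ 1
      refine mul_le_mul_of_nonneg_right h5 ?_
      split_ifs
      · exact le_rfl
      · exact zero_le_one
      · exact div_nonneg (by linarith) (by linarith)
  unfold ph4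
  have hc1 : 0 ≤ ((L : ℝ) - a) / L := div_nonneg (by linarith) (by linarith)
  have hc2 : 0 ≤ ((L : ℝ) - a) * ((L : ℝ) - a - 1) / (L * ((a : ℝ) + 1)) :=
    div_nonneg (mul_nonneg (by linarith) (by linarith)) (mul_nonneg (by linarith) (by linarith))
  have e1 := mul_le_mul_of_nonneg_left (max_sq_mono (add_le_add_right hA η)) hc1
  have e2 := mul_le_mul_of_nonneg_left (max_sq_mono (add_le_add_right hN η)) hc2
  linarith

/-! ### The masses of the sizes -/

lemma Ms_nonneg {n : ℕ} {X : Finset (Finset (Fin n))} {m : Finset (Fin n) → ℝ}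
    (hm : ∀ E ∈ X, 0 ≤ m E) (e : ℕ) : 0 ≤ Ms X m e := by
  unfold Ms
  exact Finset.sum_nonneg fun E hE => hm E (Finset.mem_filter.mp hE).1

lemma Ms_ne {n : ℕ} {X : Finset (Finset (Fin n))} {m : Finset (Fin n) → ℝ} {e : ℕ}
    (h : Ms X m e ≠ 0) : ∃ E ∈ X, E.card = e := by
  unfold Ms at h
  obtain ⟨E, hE, _⟩ := Finset.exists_ne_zero_of_sum_ne_zero h
  exact ⟨E, (Finset.mem_filter.mp hE).1, (Finset.mem_filter.mp hE).2⟩

lemma Ms_pos {n : ℕ} {X : Finset (Finset (Fin n))} {m : Finset (Fin n) → ℝ}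
    (hm : ∀ E ∈ X, 0 ≤ m E) {E : Finset (Fin n)} (hE : E ∈ X) (h : 0 < m E) :
    Ms X m E.card ≠ 0 := by
  have : m E ≤ Ms X m E.card := by
    unfold Ms
    exact Finset.single_le_sum (f := m) (fun F hF => hm F (Finset.mem_filter.mp hF).1)
      (Finset.mem_filter.mpr ⟨hE, rfl⟩)
  linarith

lemma Ms_sum {n L : ℕ} {X : Finset (Finset (Fin n))} {m : Finset (Fin n) → ℝ}
    (hX : ∀ E ∈ X, E.card + 1 ≤ L) : ∑ e ∈ range L, Ms X m e = ∑ E ∈ X, m E := by
  unfold Ms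
  exact Finset.sum_fiberwise_of_maps_to
    (fun E hE => Finset.mem_range.mpr (by have := hX E hE; omega)) m

lemma s0_le_se {n k t L e : ℕ} (hLn : L + 1 ≤ n) (hk : t < k) (hn : (t + 1) * (k - t + 1) ≤ n)
    (he : e < k) : s0 k t L e ≤ se (n - L) k e := by
  unfold s0 se
  have h1 : (e : ℝ) < k := by exact_mod_cast he
  have h2 : ((n - L : ℕ) : ℝ) = (n : ℝ) - L := by
    rw [Nat.cast_sub (by omega)]
  have h3 : ((t : ℝ) + 1) * ((k : ℝ) - t + 1) ≤ n := by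
    have : (((t + 1) * (k - t + 1) : ℕ) : ℝ) ≤ n := by exact_mod_cast hn
    rw [Nat.cast_mul, Nat.cast_add, Nat.cast_add, Nat.cast_sub hk.le] at this
    simpa using this
  rw [h2]
  exact div_le_div_of_nonneg_right (by linarith) (by linarith)

/-- Row RED: from the numeric problem to the rule. -/
theorem red (hUNI : UNIStmt) (hRCN : RCNStmt) (hTRV : TRVStmt) : REDStmt := by
  intro t ht hN n k L hL hLn hk hn
  by_cases hc : 2 * k ≤ L + t
  · exact hTRV n k t L hL hLn hc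
  obtain ⟨δ, hδ, hNum⟩ := hN k L hk hL (by omega)
  obtain ⟨ρ, hρN, hρ⟩ := hRCN k t L (n - L) δ ht hL hk (by omega) hδ
  refine ⟨ρ, fun A X m hA hX hm η hη0 hηW => ?_⟩
  rcases hη0.eq_or_lt with h0 | hη
  · rw [← h0]
    exact tt_zero ρ A X m (fun E hE => (hX E hE).2.2.2.2.1) hm
  -- scaling
  have hsc : m = fun E => η * (m E / η) := by
    funext E
    field_simp
  rw [hsc]
  refine tt_smul ρ A X (fun E => m E / η) hη ?_
  have hm' : ∀ E ∈ X, 0 ≤ m E / η := fun E hE => div_nonneg (hm E hE) hη.le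
  have hW : (1 : ℝ) ≤ ∑ E ∈ X, m E / η := by
    rw [← Finset.sum_div, le_div_iff₀ hη, one_mul]
    exact hηW
  have hne : X.Nonempty := by
    by_contra hcon
    rw [Finset.not_nonempty_iff_eq_empty] at hcon
    rw [hcon, Finset.sum_empty] at hW
    linarith
  obtain ⟨E0, hE0⟩ := hne
  have ha : A.card + 2 ≤ L := by
    have h1 := Finset.card_lt_card (hX E0 hE0).1
    have h2 := (hX E0 hE0).2.2.2.1
    omega
  obtain ⟨M, hM⟩ : ∃ M, M = Ms X (fun E => m E / η) := ⟨_, rfl⟩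
  have hM0 : ∀ e, 0 ≤ M e := by rw [hM]; exact Ms_nonneg hm'
  have hM1 : ∀ e, M e ≠ 0 → A.card < e ∧ t ≤ e ∧ e + 1 ≤ L ∧ e < k := by
    intro e he
    rw [hM] at he
    obtain ⟨E, hE, hEc⟩ := Ms_ne he
    have h1 := Finset.card_lt_card (hX E hE).1
    obtain ⟨-, -, h3, h4, h5, -⟩ := hX E hE
    subst hEc
    exact ⟨h1, h3, h4, h5⟩
  have hM2 : 1 ≤ ∑ e ∈ range L, M e := by
    rw [hM, Ms_sum fun E hE => (hX E hE).2.2.2.1]
    exact hW
  obtain ⟨σ, hσ0, hσ, hineq⟩ := hNum A.card M ha hM0 hM1 hM2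
  refine hUNI n k t L ρ A X (fun E => m E / η) 1 (fun i => σ i.val) (by omega) (by omega) hA
    (fun E hE => ⟨(hX E hE).1, (hX E hE).2.1, (hX E hE).2.2.2.1⟩) hm' zero_le_one hW
    (fun i => hσ0 i.val) ?_ ?_
  · intro i E hE hpos hst
    have h1 : M E.card ≠ 0 := by rw [hM]; exact Ms_pos hm' hE hpos
    have hi : i.val < L := by have := i.isLt; omega
    rw [(hρ i).2] at hst
    exact (hσ i.val hi E.card h1 hst).trans (s0_le_se hLn hk hn (hX E hE).2.2.2.2.1)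
  · rw [← hM, one_pow, one_mul]
    refine hineq.trans ?_
    have hs : ∑ i ∈ range L, wt L δ i * ph4 L A.card (s0 k t L) (sta k t L i) M (σ i) 1 =
        ∑ i : Fin ρ.N, wt L δ i.val *
          ph4 L A.card (s0 k t L) (sta k t L i.val) M (σ i.val) 1 := by
      rw [← Finset.sum_range (fun i => wt L δ i *
        ph4 L A.card (s0 k t L) (sta k t L i) M (σ i) 1), hρN]
    rw [hs]
    refine Finset.sum_le_sum fun i _ => ?_
    rw [(hρ i).2, ← (hρ i).1]
    refine mul_le_mul_of_nonneg_left ?_ (ρ.nonneg i)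
    refine ph4_mono ha hM0 fun e he => ?_
    obtain ⟨h1, h2, h3, h4⟩ := hM1 e he
    exact ⟨h1, h3, s0_le_se hLn hk hn h4⟩

end Pool.Agent.DPF.H27
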